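import Pool.Agent.Helper29.SR.Props
import Pool.Agent.Helper33.RC.Rank
import Pool.Agent.Helper5.RC.TwoNorm
import Pool.Agent.Helper18.RC.Kap
import Pool.Agent.Helper85.RC.RepFV

/-!
# MP_b55b7c_an, packet SR-LocB
-/

open scoped ENNReal NNReal InnerProductSpace ComplexOrder
open Filter Topology

attribute [-instance] CStarMatrix.instAlgebra CStarMatrix.instModule CStarMatrix.instSMul
  CStarMatrix.instMulAction CStarMatrix.instDistribMulAction

noncomputable section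
namespace RC
universe u

open RankAux

namespace Helper79LocB

theorem ramp_cont (s t : ℝ) : Continuous (ramp s t) := by
  unfold ramp
  fun_prop

/-- `g ≤ ramp(g) + 2 s` for a positive contraction `g`. -/
theorem le_ramp {M : Type u} [CStarAlgebra M] [PartialOrder M] [StarOrderedRing M] {g : M}
    (hg : 0 ≤ g) (hg1 : ‖g‖ ≤ 1) {s : ℝ} (hs : 0 < s) :
    g ≤ cfc (ramp s (2 * s)) g + (2 * s) • (1 : M) := by
  rcases subsingleton_or_nontrivial M with hM | hM
  · exact le_of_eq (Subsingleton.elim _ _)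
  rw [cfc_add_smul_one g _ (ramp_cont _ _) hg.isSelfAdjoint]
  conv_lhs => rw [← cfc_id' ℝ g]
  have hc : Continuous fun t => ramp s (2 * s) t + 2 * s := (ramp_cont _ _).add continuous_const
  refine cfc_mono (fun t ht => ?_) (by fun_prop) hc.continuousOn
  have h0 := spectrum_nonneg_of_nonneg hg ht
  have h1 : t ≤ 1 := by
    have h2 := spectrum.norm_le_norm_of_mem ht
    rw [Real.norm_eq_abs] at h2
    exact (le_abs_self t).trans (h2.trans hg1)
  unfold ramp
  rcases le_total t (2 * s) with h | h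
  · have := le_max_left (0 : ℝ) (min 1 ((t - s) / (2 * s - s)))
    linarith
  · have h3 : 1 ≤ (t - s) / (2 * s - s) := by
      rw [le_div_iff₀ (by linarith)]
      linarith
    rw [min_eq_left h3, max_eq_right zero_le_one]
    linarith

theorem tst_mono {M : Type u} [CStarAlgebra M] [PartialOrder M] [StarOrderedRing M]
    (φ : TState M) {x y : M} (h : x ≤ y) : (φ.φ x).re ≤ (φ.φ y).re := by
  have h1 := φ.nonneg (y - x) (sub_nonneg.mpr h)
  rw [map_sub] at h1
  have h2 := (Complex.le_def.mp h1).1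
  rw [Complex.zero_re, Complex.sub_re] at h2
  linarith

theorem locB (hR : RepFVP.{u}) (hK : KapP.{u}) (hT : TwoNormP.{u}) : LocBP.{u} := by
  intro M _ _ _ φ H _ _ _ π ρ ξ hrep a b p q ha hb hpS hp hp1 hp2 hqS hq hq1 hq2 v hvS hv hqv
    hvp ε s hs hsε
  obtain ⟨hFV, hπ⟩ := hR M φ H π ρ ξ hrep
  obtain ⟨-, hmul⟩ := hT H (Set.range ρ) ξ hFV
  have hv1 : ‖v‖ ≤ 1 := by
    have h1 : ‖star v * v‖ ≤ 1 := by
      have h2 : ‖star v * v‖ = ‖star v * v‖ * ‖star v * v‖ := by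
        have h3 := CStarRing.norm_star_mul_self (x := star v * v)
        rw [hv.isSelfAdjoint.star_eq, hv.isIdempotentElem.eq] at h3
        exact h3
      nlinarith [norm_nonneg (star v * v), sq_nonneg (‖star v * v‖ - 1)]
    rw [CStarRing.norm_star_mul_self] at h1
    nlinarith [norm_nonneg v]
  have hid : ‖(1 : H →L[ℂ] H)‖ ≤ 1 := ContinuousLinearMap.norm_id_le
  set η : ℝ := ε / 8 with hη
  have hηp : 0 < η := by
    rw [hη]
    linarith
  obtain ⟨w, hw1, hw2⟩ := hK M φ H π ρ ξ hrep v hvS hv1 (η / 3) (by positivity)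
  have hta := tendsto_en π ha hp hp1 hp2 ξ
  have htb := tendsto_en π hb hq hq1 hq2 ξ
  have hea : ∀ᶠ n in atTop, ‖π (en a n) ξ - p ξ‖ < η / 3 := by
    have := Metric.tendsto_nhds.mp hta (η / 3) (by positivity)
    simpa [dist_eq_norm] using this
  have heb : ∀ᶠ n in atTop, ‖π (en b n) ξ - q ξ‖ < η / 3 := by
    have := Metric.tendsto_nhds.mp htb (η / 3) (by positivity)
    simpa [dist_eq_norm] using this
  obtain ⟨n, hna, hnb⟩ := (hea.and heb).exists
  have hsa : IsSelfAdjoint a := ha.isSelfAdjoint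
  have hsb : IsSelfAdjoint b := hb.isSelfAdjoint
  have hea' : cfc (kf n) a * a = en a n := by
    have h1 := congrArg star (en_eq hsa n)
    rw [(en_sa a n).star_eq, star_mul, hsa.star_eq, (cfc_predicate (kf n) a : IsSelfAdjoint _).star_eq]
      at h1
    exact h1.symm
  refine ⟨cfc (kf n) b * w * cfc (kf n) a, ?_⟩
  have hc : b * (cfc (kf n) b * w * cfc (kf n) a) * a = en b n * w * en a n := by
    rw [en_eq hsb n, ← hea']
    simp only [mul_assoc]
  rw [hc]
  set c : M := en b n * w * en a n with hcdef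
  have hc1 : ‖c‖ ≤ 1 := by
    calc ‖c‖ ≤ ‖en b n‖ * ‖w‖ * ‖en a n‖ :=
          (norm_mul_le _ _).trans (mul_le_mul_of_nonneg_right (norm_mul_le _ _) (norm_nonneg _))
      _ ≤ 1 * 1 * 1 := by
          gcongr
          · exact en_norm hb n
          · exact en_norm ha n
      _ = 1 := by norm_num
  -- the distance of `c` and `v`
  have hEa : π (en a n) ∈ (Set.range ρ).centralizer := hπ _
  have hEb : π (en b n) ∈ (Set.range ρ).centralizer := hπ _
  have hsub : ∀ x y : H →L[ℂ] H, x ∈ (Set.range ρ).centralizer → y ∈ (Set.range ρ).centralizer →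
      x - y ∈ (Set.range ρ).centralizer := fun x y hx hy => kap_sub_mem_cent hx hy
  have hone : (1 : H →L[ℂ] H) ∈ (Set.range ρ).centralizer := Set.one_mem_centralizer
  have hnE : ∀ x : M, ‖π x‖ ≤ ‖x‖ := fun x => NonUnitalStarAlgHom.norm_apply_le π x
  have hna1 : ‖π (en a n)‖ ≤ 1 := (hnE _).trans (en_norm ha n)
  have hnb1 : ‖π (en b n)‖ ≤ 1 := (hnE _).trans (en_norm hb n)
  have hdec : π c - v = π (en b n) * (π w - v) * π (en a n) +
      1 * (π (en b n) - q) * (v * π (en a n)) + v * (π (en a n) - p) * 1 := by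
    rw [hcdef, map_mul, map_mul]
    have h1 : q * (v * π (en a n)) = v * π (en a n) := by rw [← mul_assoc, hqv]
    rw [one_mul, mul_one, mul_sub, sub_mul, sub_mul, h1, mul_sub, hvp]
    simp only [mul_assoc]
    abel
  have hqv1 : ‖v * π (en a n)‖ ≤ 1 := by
    calc ‖v * π (en a n)‖ ≤ ‖v‖ * ‖π (en a n)‖ := norm_mul_le _ _
      _ ≤ 1 * 1 := by gcongr
      _ = 1 := one_mul 1
  have ht1 : ‖(π (en b n) * (π w - v) * π (en a n)) ξ‖ ≤ η / 3 := by
    refine (hmul _ hEb _ (hsub _ _ (hπ w) hvS) _ hEa).trans ?_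
    have h1 : ‖(π w - v) ξ‖ ≤ η / 3 := by
      rw [sub_apply]
      exact hw2.le
    calc ‖π (en b n)‖ * ‖π (en a n)‖ * ‖(π w - v) ξ‖ ≤ 1 * 1 * (η / 3) := by gcongr
      _ = η / 3 := by ring
  have ht2 : ‖(1 * (π (en b n) - q) * (v * π (en a n))) ξ‖ ≤ η / 3 := by
    refine (hmul _ hone _ (hsub _ _ hEb hqS) _ (Set.mul_mem_centralizer hvS hEa)).trans ?_
    have h1 : ‖(π (en b n) - q) ξ‖ ≤ η / 3 := by
      rw [sub_apply]
      exact hnb.le
    calc ‖(1 : H →L[ℂ] H)‖ * ‖v * π (en a n)‖ * ‖(π (en b n) - q) ξ‖ ≤ 1 * 1 * (η / 3) := by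
          gcongr
      _ = η / 3 := by ring
  have ht3 : ‖(v * (π (en a n) - p) * 1) ξ‖ ≤ η / 3 := by
    refine (hmul _ hvS _ (hsub _ _ hEa hpS) _ hone).trans ?_
    have h1 : ‖(π (en a n) - p) ξ‖ ≤ η / 3 := by
      rw [sub_apply]
      exact hna.le
    calc ‖v‖ * ‖(1 : H →L[ℂ] H)‖ * ‖(π (en a n) - p) ξ‖ ≤ 1 * 1 * (η / 3) := by gcongr
      _ = η / 3 := by ring
  have hdist : ‖π c ξ - v ξ‖ ≤ η := by
    have h1 : π c ξ - v ξ = (π (en b n) * (π w - v) * π (en a n)) ξ +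
        (1 * (π (en b n) - q) * (v * π (en a n))) ξ + (v * (π (en a n) - p) * 1) ξ := by
      have := congrArg (fun T : H →L[ℂ] H => T ξ) hdec
      simpa only [sub_apply, add_apply] using this
    rw [h1]
    refine norm_add₃_le.trans ?_
    linarith
  -- the traces
  have hξ : ‖ξ‖ = 1 := hFV.norm
  have hnx : ∀ T : H →L[ℂ] H, ‖T‖ ≤ 1 → ‖T ξ‖ ≤ 1 := by
    intro T hT1
    calc ‖T ξ‖ ≤ ‖T‖ * ‖ξ‖ := T.le_opNorm ξ
      _ ≤ 1 * 1 := by rw [hξ]; gcongr
      _ = 1 := one_mul 1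
  have hsq : ∀ T : H →L[ℂ] H, ⟪ξ, (star T * T) ξ⟫_ℂ = ((‖T ξ‖ ^ 2 : ℝ) : ℂ) := by
    intro T
    change ⟪ξ, star T (T ξ)⟫_ℂ = _
    rw [ContinuousLinearMap.star_eq_adjoint, ContinuousLinearMap.adjoint_inner_right,
      inner_self_eq_norm_sq_to_K]
    push_cast
    rfl
  have htr : tr ξ (star v * v) = ‖v ξ‖ ^ 2 := by
    unfold tr
    rw [hsq, Complex.ofReal_re]
  have hφg : (φ.φ (sq c)).re = ‖π c ξ‖ ^ 2 := by
    rw [← hrep.inner, show π (sq c) = star (π c) * π c by rw [map_mul, map_star], hsq,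
      Complex.ofReal_re]
  have hg0 : 0 ≤ sq c := star_mul_self_nonneg c
  have hg1 : ‖sq c‖ ≤ 1 := by
    change ‖star c * c‖ ≤ 1
    rw [CStarRing.norm_star_mul_self]
    nlinarith [norm_nonneg c]
  have hle := tst_mono φ (le_ramp hg0 hg1 hs)
  rw [map_add, Complex.add_re] at hle
  have h2s : (φ.φ ((2 * s) • (1 : M))).re = 2 * s := by
    have h1 : ((2 * s : ℝ) • (1 : M)) = ((2 * s : ℝ) : ℂ) • (1 : M) := by
      rw [Complex.coe_smul]
    rw [h1, map_smul, φ.one, smul_eq_mul, mul_one, Complex.ofReal_re]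
  rw [h2s, hφg] at hle
  have hvn := hnx v hv1
  have hcn := hnx (π c) ((hnE c).trans hc1)
  have hd2 : ‖v ξ‖ ≤ ‖π c ξ‖ + η := by
    have h1 : ‖v ξ‖ - ‖π c ξ‖ ≤ ‖v ξ - π c ξ‖ := norm_sub_norm_le _ _
    rw [norm_sub_rev] at h1
    linarith
  have hfin : ‖v ξ‖ ^ 2 ≤ ‖π c ξ‖ ^ 2 + 2 * η := by
    nlinarith [norm_nonneg (v ξ), norm_nonneg (π c ξ)]
  rw [htr]
  have : 2 * s + 2 * η < ε := by
    rw [hη]
    linarith
  linarith

/-- Packet SR-LocB. -/
theorem locB_all : LocBP.{u} := locB repFVP (kapP repFVP twoNormP) twoNormP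

end Helper79LocB

end RC
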