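import Pool.Agent.Helper98.SR.Goals

/-!
# Packet SR-GFB (MP_b440f6_pr): generating functions of sets of walks in the half-plane
-/

set_option autoImplicit false

open scoped ENNReal
open Finset
open Pool.Agent.Helper98.Saw hiding iv
open Pool.Agent.Helper92.Eps
open Pool.Agent.Helper99.Eps
open Pool.Agent.Helper64.SR
open Pool.Agent.Helper98.SawDefs
open Pool.Agent.Helper64.SRDefs
open Pool.Agent.Helper98.SR

namespace Pool.Agent.Helper79.SR.GFB

lemma cz_cz (z : V) : cz (cz z) = z := by
  funext i
  fin_cases i <;> rfl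

lemma cz_inj : Function.Injective cz := fun a b h => by
  rw [← cz_cz a, h, cz_cz]

lemma sg_cz (z : V) : sg (cz z) = sg z := by
  show z 2 + z 1 + z 0 = z 0 + z 1 + z 2
  ring

lemma cz_add (y z : V) : cz (y + z) = cz y + cz z := by
  funext i
  fin_cases i <;> rfl

lemma cz_e (i : Fin 3) : ∃ j : Fin 3, cz (e i) = e j := by
  fin_cases i
  · refine ⟨2, ?_⟩
    funext x; fin_cases x <;> simp [cz, e]
  · refine ⟨1, ?_⟩
    funext x; fin_cases x <;> simp [cz, e]
  · refine ⟨0, ?_⟩
    funext x; fin_cases x <;> simp [cz, e]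

lemma adj_cz {y z : V} (h : Adj y z) : Adj (cz y) (cz z) := by
  rcases h with ⟨h1, i, rfl⟩ | ⟨h1, i, rfl⟩
  · left
    obtain ⟨j, hj⟩ := cz_e i
    exact ⟨by rw [sg_cz, h1], j, by rw [cz_add, hj]⟩
  · right
    obtain ⟨j, hj⟩ := cz_e i
    exact ⟨by rw [sg_cz, h1], j, by rw [cz_add, hj]⟩

lemma saw_of {U : List V} (h : U = [] ∨ Hw U) : Saw 0 (U.length + 1) ((0 : V) :: U.map cz) := by
  refine ⟨rfl, ?_, ?_, by simp⟩
  · rcases h with rfl | h
    · simp
    · rcases U with _ | ⟨u, U'⟩
      · simp
      · have hu : u = e 2 := by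
          have := h.head
          simpa using this
        subst hu
        rw [List.map_cons, List.isChain_cons_cons]
        refine ⟨?_, ?_⟩
        · left
          refine ⟨by simp [sg], 0, ?_⟩
          funext x; fin_cases x <;> simp [cz, e]
        · rw [← List.map_cons, List.isChain_map]
          exact h.chain.imp (fun a b hab => adj_cz hab)
  · rw [List.nodup_cons]
    rcases h with rfl | h
    · simp
    · refine ⟨?_, h.nodup.map cz_inj⟩
      intro h0
      obtain ⟨z, hz, hz0⟩ := List.mem_map.1 h0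
      have h1 := h.row z hz
      have h2 := congrFun hz0 0
      have h3 : cz z 0 = z 2 := rfl
      rw [h3] at h2
      have h4 : (0 : V) 0 = 0 := rfl
      rw [h4] at h2
      omega

theorem t : S_GFB := by
  classical
  intro s Q x _ hQ hs
  set X := ENNReal.ofReal x with hX
  have hinj : ∀ n, Set.InjOn (fun U : List V => (0 : V) :: U.map cz)
      {U | U.length = n ∧ Q U} := by
    intro n U _ U' _ h
    exact (List.map_injective_iff.2 cz_inj) (List.cons.inj h).2
  have hmaps : ∀ n, Set.MapsTo (fun U : List V => (0 : V) :: U.map cz)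
      {U | U.length = n ∧ Q U} (Sw 0 (n + 1) : Set (List V)) := by
    rintro n U ⟨hU, hq⟩
    rw [Finset.mem_coe, mem_Sw hex_zero]
    have := saw_of (hQ U hq)
    rw [hU] at this
    exact this
  have hfin : ∀ n, {U : List V | U.length = n ∧ Q U}.Finite := fun n =>
    Set.Finite.of_injOn (hmaps n) (hinj n) (Finset.finite_toSet _)
  have hcard : ∀ n, (s n).ncard = {U : List V | U.length = n ∧ Q U}.ncard := by
    intro n
    rw [hs n]
    apply Set.ncard_image_of_injOn
    intro U hU U' hU' h
    exact hinj n hU hU' (toWalk_injOn n (hmaps n hU) (hmaps n hU') h)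
  have hn : ∀ n, ((s n).ncard : ℝ≥0∞) * X ^ n =
      ∑' U : List V, iv (U.length = n ∧ Q U) (X ^ U.length) := by
    intro n
    rw [tsum_eq_sum (s := (hfin n).toFinset)]
    · have h1 : ∀ U ∈ (hfin n).toFinset, iv (U.length = n ∧ Q U) (X ^ U.length) = X ^ n := by
        intro U hU
        have h2 : U.length = n ∧ Q U := (hfin n).mem_toFinset.1 hU
        rw [iv_pos h2, h2.1]
      rw [Finset.sum_congr rfl h1, Finset.sum_const, nsmul_eq_mul, hcard n,
        Set.ncard_eq_toFinset_card _ (hfin n)]
    · intro U hU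
      apply iv_neg
      intro h
      exact hU ((hfin n).mem_toFinset.2 h)
  unfold gfE
  rw [tsum_congr hn, ENNReal.tsum_comm]
  apply tsum_congr
  intro U
  rw [tsum_eq_single U.length]
  · by_cases h : Q U
    · rw [iv_pos h, iv_pos ⟨rfl, h⟩]
    · rw [iv_neg h, iv_neg (fun h' => h h'.2)]
  · intro n hne
    exact iv_neg (fun h => hne h.1.symm)

end Pool.Agent.Helper79.SR.GFB
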