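import Pool.Agent.Helper79.SR.Names
import Pool.Agent.Helper46.FL.Lib

/-! # MP_9201f8_lc: from the forcing to the model -/

namespace SR

open Pool.Agent.Helper97.Ku NU

theorem main (omg : G_OMG) (ord : S_ORD) (ub : S_UB) (lb : S_LB) (cof : S_COF) (syn : S_SYN)
    (L : Type) [CompleteBooleanAlgebra L] [Nontrivial L] (I : Type) [LinearOrder I]
    [WellFoundedLT I] (Tc : I → Finset ℕ → L) (h : HypS L I Tc) (g : ℕ → I)
    (hg : ∀ i, ∃ n, i < g n) :
    ∃ (N : Type 1) (E : N → N → Prop), IsZFC N E ∧ CofSR E := by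
  have h1 : cofSRV L = ⊤ := val omg ord ub lb cof L I Tc h g hg
  obtain ⟨φ, h2, h3⟩ := syn
  have h4 : φ.val (fun _ => (omN : BSet L)) ≠ ⊥ := by
    rw [h3]
    change cofSRV L ≠ ⊥
    rw [h1]
    exact top_ne_bot
  obtain ⟨N, E, v, hZ, hv⟩ := Pool.Agent.Helper46.FL.con L φ _ h4
  exact ⟨N, E, hZ, (h2 N E v).1 hv⟩

end SR
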