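import Pool.Agent.Helper79.SA.NModel

/-!
# MP_9201f8_lc: the statement about models of ZFC, and its Boolean-valued version

`CofSR E` says that in the structure `(N, E)` the following holds: the topological splitting
number of the Cantor space (the least length `k` of a sequence of open sets such that every
infinite set of points is split by a member of the sequence) has countable cofinality.
-/

noncomputable section

namespace SR

open Pool.Agent.Helper97.Ku NU

section Model

variable {N : Type 1} (E : N → N → Prop)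

/-- The real `x` belongs to the open set coded by `T` (`o` is `ω`, reals are subsets of `ω`): for
some `t ∈ T` and some natural number `n`, which is the largest element of `t`, the sets `t` and `x`
have the same elements below `n`. -/
def InU (o T x : N) : Prop := ∃ t n, E t T ∧ E n o ∧ Lst E t n ∧ AgB E n t x

/-- `P` is infinite: some function of the model is an injection of `ω` into the class `P`. -/
def Infi (o : N) (P : N → Prop) : Prop := Inj E (fun n => E n o) P

/-- The open set `U` coded by `T` splits `A`: both `A ∩ U` and `A \ U` are infinite. -/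
def Spl (o T A : N) : Prop :=
  Infi E o (fun x => E x A ∧ InU E o T x) ∧ Infi E o (fun x => E x A ∧ ¬ InU E o T x)

/-- `h` is a function on `a`. -/
def IsFn (h a : N) : Prop := ∀ j, E j a → ∃ T, ∀ c, Ap E h j c ↔ c = T

/-- `h` is a sequence, indexed by `a`, of codes of open sets, and every infinite set of reals is
split by one of these open sets. -/
def SplSeq (o a h : N) : Prop :=
  IsFn E h a ∧ ∀ A, IsReals E o A → Infi E o (fun x => E x A) →
    ∃ j T, E j a ∧ Ap E h j T ∧ Spl E o T A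

/-- `g` is a function from `o` to `k` with unbounded range. -/
def IsCofin (o k g : N) : Prop :=
  (∀ n, E n o → ∃ b, E b k ∧ ∀ c, Ap E g n c ↔ c = b) ∧
    ∀ a, E a k → ∃ n b, E n o ∧ Ap E g n b ∧ E a b

/-- The least ordinal `k` such that some sequence of open sets of length `k` splits all infinite
sets of reals has countable cofinality. -/
def CofSR : Prop := ∃ o k g, IsOmega E o ∧ IsOrd E k ∧ (∃ h, SplSeq E o k h) ∧
  (∀ a, E a k → ∀ h, ¬ SplSeq E o a h) ∧ IsCofin E o k g

end Model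

section Val

variable {L : Type} [CompleteBooleanAlgebra L]

def inUV (o T x : BSet L) : L :=
  ⨆ t : BSet L, ⨆ n : BSet L, (t.mem T ⊓ (n.mem o ⊓ (lstV t n ⊓ agbV n t x)))

def infiV (o : BSet L) (P : BSet L → L) : L := injV (fun n => n.mem o) P

def splV (o T A : BSet L) : L :=
  infiV o (fun x => x.mem A ⊓ inUV o T x) ⊓ infiV o (fun x => x.mem A ⊓ (inUV o T x)ᶜ)

def isFnV (h a : BSet L) : L :=
  ⨅ j : BSet L, (j.mem a ⇨ ⨆ T : BSet L, ⨅ c : BSet L, iffV (apV h j c) (c.eq T))

def splSeqV (o a h : BSet L) : L :=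
  isFnV h a ⊓ ⨅ A : BSet L, (realsV o A ⇨ (infiV o (fun x => x.mem A) ⇨
    ⨆ j : BSet L, ⨆ T : BSet L, (j.mem a ⊓ (apV h j T ⊓ splV o T A))))

def isCofinV (o k g : BSet L) : L :=
  (⨅ n : BSet L, (n.mem o ⇨ ⨆ b : BSet L, (b.mem k ⊓ ⨅ c : BSet L,
    iffV (apV g n c) (c.eq b)))) ⊓
  ⨅ a : BSet L, (a.mem k ⇨ ⨆ n : BSet L, ⨆ b : BSet L, (n.mem o ⊓ (apV g n b ⊓ a.mem b)))

def cofSRV (L : Type) [CompleteBooleanAlgebra L] : L :=
  ⨆ o : BSet L, ⨆ k : BSet L, ⨆ g : BSet L, (omegaV o ⊓ (ordV k ⊓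
    ((⨆ h : BSet L, splSeqV o k h) ⊓
      ((⨅ a : BSet L, (a.mem k ⇨ ⨅ h : BSet L, (splSeqV o a h)ᶜ)) ⊓ isCofinV o k g))))

/-- The name of an ordinal. -/
def on {I : Type} [LinearOrder I] [WellFoundedLT I] : I → BSet L :=
  WellFoundedLT.fix fun i rec => BSet.mk {j : I // j < i} (fun j => rec j.1 j.2) (fun _ => ⊤)

theorem on_eq {I : Type} [LinearOrder I] [WellFoundedLT I] (i : I) :
    (on i : BSet L) = BSet.mk {j : I // j < i} (fun j => on j.1) (fun _ => ⊤) :=
  WellFoundedLT.fix_eq _ _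

/-- The name of the ordinal `I`. -/
def okN (I : Type) [LinearOrder I] [WellFoundedLT I] : BSet L := BSet.mk I on (fun _ => ⊤)

/-- The name of a set of finite sets, with Boolean values. -/
def tN (τ : Finset ℕ → L) : BSet L := BSet.mk (Finset ℕ) fsN τ

/-- The name of the sequence `x i`, `i : I`. -/
def sqN {I : Type} [LinearOrder I] [WellFoundedLT I] (x : I → BSet L) : BSet L :=
  BSet.mk I (fun i => kpr (on i) (x i)) (fun _ => ⊤)

/-- The name of the sequence `x n`, `n : ℕ`. -/
def snN (x : ℕ → BSet L) : BSet L := BSet.mk ℕ (fun n => kpr (nn n) (x n)) (fun _ => ⊤)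

/-! ### The interface with the forcing -/

open Classical in
/-- The real with the Boolean values `a` belongs to the open set with the Boolean values `τ`. -/
def covV (τ : Finset ℕ → L) (a : ℕ → L) : L :=
  ⨆ t : Finset ℕ, ⨆ m : ℕ, ⨆ _ : NU.LastN t m, (τ t ⊓ SA.agr a t m)

/-- The reals are different. -/
def neV (a b : ℕ → L) : L := (⨅ n, iffV (a n) (b n))ᶜ

/-- Infinitely many. -/
def ioV (b : ℕ → L) : L := ⨅ n : ℕ, ⨆ k : ℕ, ⨆ _ : n ≤ k, b k

end Val

/-- What the forcing gives. `Tc` is the splitting family. -/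
structure HypS (L : Type) [CompleteBooleanAlgebra L] (I : Type) [LinearOrder I]
    (Tc : I → Finset ℕ → L) : Prop where
  /-- shorter families are not splitting -/
  lo : ∀ (i : I) (τ : I → Finset ℕ → L) (c : L), c ≠ ⊥ → ∃ d, d ≤ c ∧ d ≠ ⊥ ∧
    ∃ x : ℕ → ℕ → L, (∀ k l, k ≠ l → d ≤ neV (x k) (x l)) ∧ ∀ j < i,
      d ≤ (ioV fun k => (covV (τ j) (x k))ᶜ)ᶜ ⊔ (ioV fun k => covV (τ j) (x k))ᶜ
  /-- the family is splitting -/
  up : ∀ (x : ℕ → ℕ → L) (c : L), c ≠ ⊥ → (∀ k l, k ≠ l → c ≤ neV (x k) (x l)) →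
    ∃ d, d ≤ c ∧ d ≠ ⊥ ∧ ∃ i, d ≤ (ioV fun k => covV (Tc i) (x k)) ⊓
      ioV fun k => (covV (Tc i) (x k))ᶜ

end SR
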