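import Pool.Agent.Helper79.SR.Model
import Pool.Agent.Helper79.SA.NGoals

/-!
# MP_9201f8_lc: goals of the transfer part (names)
-/

noncomputable section

namespace SR

open Pool.Agent.Helper97.Ku NU SA

/-- Names of ordinals. -/
def S_ORD : Prop := ∀ (L : Type) [CompleteBooleanAlgebra L] (I : Type) [LinearOrder I]
  [WellFoundedLT I],
  (∀ (i : I) (x : BSet L), x.mem (on i) = ⨆ j : I, ⨆ _ : j < i, x.eq (on j)) ∧
  (∀ x : BSet L, x.mem (okN I) = ⨆ i : I, x.eq (on i)) ∧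
  (∀ i j : I, (on i : BSet L).eq (on j) = bo (i = j)) ∧
  (∀ i j : I, (on i : BSet L).mem (on j) = bo (i < j)) ∧
  ordV (okN I : BSet L) = ⊤

/-- Names of sequences. -/
def S_SQ : Prop := ∀ (L : Type) [CompleteBooleanAlgebra L],
  (∀ (I : Type) [LinearOrder I] [WellFoundedLT I] (x : I → BSet L),
    (∀ y T : BSet L, apV (sqN x) y T = ⨆ i : I, (y.eq (on i) ⊓ T.eq (x i))) ∧
    (∀ i : I, (⨅ c : BSet L, iffV (apV (sqN x) (on i) c) (c.eq (x i))) = ⊤) ∧
    isFnV (sqN x) (okN I) = ⊤) ∧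
  (∀ x : ℕ → BSet L,
    (∀ y T : BSet L, apV (snN x) y T = ⨆ n : ℕ, (y.eq (nn n) ⊓ T.eq (x n))) ∧
    (∀ n : ℕ, (⨅ c : BSet L, iffV (apV (snN x) (nn n) c) (c.eq (x n))) = ⊤))

/-- Names of codes and of reals. -/
def S_COV : Prop := ∀ (L : Type) [CompleteBooleanAlgebra L],
  (∀ (τ : Finset ℕ → L) (t : Finset ℕ), (fsN t).mem (tN τ) = τ t) ∧
  (∀ (T : BSet L) (a : ℕ → L), inUV omN T (rn a) = covV (fun t => (fsN t).mem T) a) ∧
  (∀ a b : ℕ → L, ((rn a).eq (rn b))ᶜ = neV a b)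

/-- The predicates are extensional. -/
def S_EXT : Prop := ∀ (L : Type) [CompleteBooleanAlgebra L],
  (∀ o T : BSet L, BSet.Ext (fun x => inUV o T x)) ∧
  (∀ o x : BSet L, BSet.Ext (fun T => inUV o T x)) ∧
  (∀ o A : BSet L, BSet.Ext (fun T => splV o T A)) ∧
  (∀ o h : BSet L, BSet.Ext (fun a => splSeqV o a h)) ∧
  (∀ h : BSet L, BSet.Ext (fun j => ⨆ T : BSet L, ⨅ c : BSet L, iffV (apV h j c) (c.eq T))) ∧
  (∀ h j : BSet L, BSet.Ext (fun T => ⨅ c : BSet L, iffV (apV h j c) (c.eq T)))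

/-- From a sequence of different members of `P` to an injection. -/
def S_INF : Prop := ∀ (L : Type) [CompleteBooleanAlgebra L] (P : BSet L → L), BSet.Ext P →
  ∀ (x : ℕ → BSet L) (b : L), (∀ k l, k ≠ l → b ≤ ((x k).eq (x l))ᶜ) →
    b ≤ ioV (fun k => P (x k)) → b ≤ infiV omN P

/-- A class with finitely many members is not infinite. -/
def S_PHP : Prop := ∀ (L : Type) [CompleteBooleanAlgebra L] (P : BSet L → L) (x : ℕ → BSet L)
  (n : ℕ) (b : L), (∀ y, b ⊓ P y ≤ ⨆ k : Fin n, y.eq (x k.1)) → b ⊓ infiV omN P = ⊥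

/-- From an infinite set of reals to a sequence. -/
def S_SEQ : Prop := ∀ (L : Type) [CompleteBooleanAlgebra L] (A : BSet L) (b : L),
  b ≤ realsV omN A → b ≤ infiV omN (fun x => x.mem A) →
    ∃ x : ℕ → ℕ → L, (∀ k, b ≤ (rn (x k)).mem A) ∧ ∀ k l, k ≠ l → b ≤ neV (x k) (x l)

/-- The family is splitting. -/
def S_UB : Prop := ∀ (L : Type) [CompleteBooleanAlgebra L] (I : Type) [LinearOrder I]
  [WellFoundedLT I] (Tc : I → Finset ℕ → L), HypS L I Tc →
  splSeqV omN (okN I) (sqN fun i => tN (Tc i)) = ⊤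

/-- Shorter families are not splitting. -/
def S_LB : Prop := ∀ (L : Type) [CompleteBooleanAlgebra L] (I : Type) [LinearOrder I]
  [WellFoundedLT I] (Tc : I → Finset ℕ → L), HypS L I Tc →
  (⨅ a : BSet L, (a.mem (okN I) ⇨ ⨅ h : BSet L, (splSeqV omN a h)ᶜ)) = ⊤

/-- The cofinal sequence. -/
def S_COF : Prop := ∀ (L : Type) [CompleteBooleanAlgebra L] (I : Type) [LinearOrder I]
  [WellFoundedLT I] (g : ℕ → I), (∀ i, ∃ n, i < g n) →
  isCofinV omN (okN I) (snN fun n => (on (g n) : BSet L)) = ⊤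

/-- The formula. -/
def S_SYN : Prop := Dfn (fun N E _ => CofSR E) (fun L _ _ => cofSRV L)

/-- The Boolean value of the statement. -/
theorem val (omg : G_OMG) (ord : S_ORD) (ub : S_UB) (lb : S_LB) (cof : S_COF)
    (L : Type) [CompleteBooleanAlgebra L] (I : Type) [LinearOrder I] [WellFoundedLT I]
    (Tc : I → Finset ℕ → L) (h : HypS L I Tc) (g : ℕ → I) (hg : ∀ i, ∃ n, i < g n) :
    cofSRV L = ⊤ := by
  rw [eq_top_iff]
  refine le_trans ?_ (le_iSup_of_le (omN : BSet L) (le_iSup_of_le (okN I : BSet L)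
    (le_iSup _ (snN fun n => (on (g n) : BSet L)))))
  rw [omg L, (ord L I).2.2.2.2, lb L I Tc h, cof L I g hg]
  have h1 : (⨆ h : BSet L, splSeqV omN (okN I) h) = ⊤ := by
    rw [eq_top_iff, ← ub L I Tc h]
    exact le_iSup (fun h : BSet L => splSeqV omN (okN I) h) _
  rw [h1]
  simp

end SR
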